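import Pool.Agent.P8H70.TU.Stm2
import Pool.Agent.P8H78.TU.Alg

set_option autoImplicit false
set_option linter.all false

/-!
# Project TU (helper70), package VAL: the kernel of de la Vallee Poussin
-/

open Complex MeasureTheory Finset

namespace Pool.Agent.P8H76.TU

open Pool.Agent.P8H70.TR (tp continuous_tp parseval)
open Pool.Agent.P8H70.TU
open Pool.Agent.P8H78.TU (tp_per swap)

/-- the pairs with a given sum -/
def prs (n l : ℕ) : Finset (ℕ × ℕ) :=
  (range (2 * n + 1) ×ˢ range (n + 1)).filter (fun p => p.1 + p.2 = l)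

/-- the coefficients of the kernel -/
noncomputable def vc (n l : ℕ) : ℂ := ((n : ℂ) + 1)⁻¹ * ((prs n l).card : ℂ)

theorem prs_card (n j : ℕ) (hj : j ≤ n) : (prs n (n + j)).card = n + 1 := by
  have h : prs n (n + j) = (range (n + 1)).image (fun b => (n + j - b, b)) := by
    ext ⟨a, b⟩
    unfold prs
    simp only [mem_filter, mem_product, mem_range, mem_image, Prod.mk.injEq]
    constructor
    · rintro ⟨⟨h1, h2⟩, h3⟩
      exact ⟨b, h2, by omega, rfl⟩
    · rintro ⟨c, h1, h2, rfl⟩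
      omega
  rw [h, card_image_of_injective, card_range]
  intro x y hxy
  exact (Prod.mk.inj hxy).2

theorem vc_mid (n j : ℕ) (hj : j ≤ n) : vc n (n + j) = 1 := by
  unfold vc
  rw [prs_card n j hj]
  push_cast
  exact inv_mul_cancel₀ (by exact_mod_cast Nat.succ_ne_zero n)

theorem tp_vc (n : ℕ) (t : ℝ) : tp (3 * n) (vc n) t =
    ((n : ℂ) + 1)⁻¹ * (tp (2 * n) (fun _ => 1) t * tp n (fun _ => 1) t) := by
  have h1 : tp (2 * n) (fun _ => 1) t * tp n (fun _ => 1) t =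
      ∑ p ∈ range (2 * n + 1) ×ˢ range (n + 1), cexp ((((p.1 + p.2 : ℕ) * t : ℝ) : ℂ) * I) := by
    unfold tp
    rw [Finset.sum_mul_sum, Finset.sum_product]
    refine Finset.sum_congr rfl fun a _ => Finset.sum_congr rfl fun b _ => ?_
    rw [one_mul, one_mul, ← Complex.exp_add]
    congr 1
    push_cast
    ring
  have h2 : ∑ p ∈ range (2 * n + 1) ×ˢ range (n + 1), cexp ((((p.1 + p.2 : ℕ) * t : ℝ) : ℂ) * I) =
      ∑ l ∈ range (3 * n + 1), ∑ p ∈ (range (2 * n + 1) ×ˢ range (n + 1)).filter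
        (fun p => p.1 + p.2 = l), cexp ((((p.1 + p.2 : ℕ) * t : ℝ) : ℂ) * I) := by
    refine (Finset.sum_fiberwise_of_maps_to (g := fun p : ℕ × ℕ => p.1 + p.2) ?_ _).symm
    intro p hp
    rw [mem_product, mem_range, mem_range] at hp
    rw [mem_range]
    omega
  rw [h1, h2, Finset.mul_sum]
  unfold tp
  refine Finset.sum_congr rfl fun l _ => ?_
  have h3 : ∑ p ∈ (range (2 * n + 1) ×ˢ range (n + 1)).filter
      (fun p => p.1 + p.2 = l), cexp ((((p.1 + p.2 : ℕ) * t : ℝ) : ℂ) * I) =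
      ((prs n l).card : ℂ) * cexp (((l * t : ℝ) : ℂ) * I) := by
    have h4 : ∀ p ∈ (range (2 * n + 1) ×ˢ range (n + 1)).filter (fun p => p.1 + p.2 = l),
        cexp ((((p.1 + p.2 : ℕ) * t : ℝ) : ℂ) * I) = cexp (((l * t : ℝ) : ℂ) * I) := by
      intro p hp
      rw [(mem_filter.1 hp).2]
    rw [Finset.sum_congr rfl h4, Finset.sum_const, nsmul_eq_mul]
    rfl
  rw [h3]
  unfold vc
  ring

theorem N1_vc (n : ℕ) : N1 (3 * n) (vc n) ≤ 2 := by
  have hpi : 0 < 2 * Real.pi := by positivity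
  have hn : (0 : ℝ) < (n : ℝ) + 1 := by positivity
  have h1 : ∀ t, ‖tp (3 * n) (vc n) t‖ ≤ ((n : ℝ) + 1)⁻¹ *
      ((‖tp (2 * n) (fun _ => 1) t‖ ^ 2 + ‖tp n (fun _ => 1) t‖ ^ 2) / 2) := by
    intro t
    rw [tp_vc, norm_mul, norm_mul, norm_inv]
    have e : ‖(n : ℂ) + 1‖ = (n : ℝ) + 1 := by
      have : (n : ℂ) + 1 = (((n : ℝ) + 1 : ℝ) : ℂ) := by push_cast; rfl
      rw [this, Complex.norm_real, Real.norm_eq_abs, abs_of_pos hn]
    rw [e]
    refine mul_le_mul_of_nonneg_left ?_ (inv_nonneg.2 hn.le)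
    nlinarith [sq_nonneg (‖tp (2 * n) (fun _ => 1) t‖ - ‖tp n (fun _ => 1) t‖)]
  have c1 := continuous_tp (2 * n) (fun _ => 1)
  have c2 := continuous_tp n (fun _ => 1)
  have c3 := continuous_tp (3 * n) (vc n)
  have h2 : ∫ t in (0 : ℝ)..(2 * Real.pi), ‖tp (3 * n) (vc n) t‖ ≤
      ∫ t in (0 : ℝ)..(2 * Real.pi), ((n : ℝ) + 1)⁻¹ *
      ((‖tp (2 * n) (fun _ => 1) t‖ ^ 2 + ‖tp n (fun _ => 1) t‖ ^ 2) / 2) :=
    intervalIntegral.integral_mono_on hpi.le (c3.norm.intervalIntegrable _ _)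
      ((continuous_const.mul (((c1.norm.pow 2).add (c2.norm.pow 2)).div_const 2)).intervalIntegrable
        _ _) (fun t _ => h1 t)
  have i1 : IntervalIntegrable (fun t => ‖tp (2 * n) (fun _ => 1) t‖ ^ 2) volume 0
      (2 * Real.pi) := (c1.norm.pow 2).intervalIntegrable _ _
  have i2 : IntervalIntegrable (fun t => ‖tp n (fun _ => 1) t‖ ^ 2) volume 0
      (2 * Real.pi) := (c2.norm.pow 2).intervalIntegrable _ _
  rw [intervalIntegral.integral_const_mul, intervalIntegral.integral_div,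
    intervalIntegral.integral_add i1 i2, parseval, parseval] at h2
  simp only [norm_one, one_pow, sum_const, card_range, nsmul_eq_mul, mul_one] at h2
  unfold N1
  have h3 := mul_le_mul_of_nonneg_left h2 (inv_nonneg.2 hpi.le)
  refine h3.trans ?_
  have e : (2 * Real.pi)⁻¹ * (((n : ℝ) + 1)⁻¹ * ((2 * Real.pi * ((2 * n + 1 : ℕ) : ℝ) +
      2 * Real.pi * ((n + 1 : ℕ) : ℝ)) / 2)) = (3 * (n : ℝ) + 2) / (2 * ((n : ℝ) + 1)) := by
    have h4 : Real.pi ≠ 0 := Real.pi_ne_zero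
    push_cast
    field_simp
    ring
  rw [e, div_le_iff₀ (by positivity)]
  have : (0 : ℝ) ≤ n := Nat.cast_nonneg n
  linarith

/-- convolution with the kernel -/
theorem conv' (m : ℕ) (v : ℕ → ℂ) (G : ℝ → ℂ) (hG : Continuous G) (t : ℝ) :
    ∫ s in (0 : ℝ)..(2 * Real.pi), G s * tp m v (t - s) = ((2 * Real.pi : ℝ) : ℂ) *
      tp m (fun l => v l * (((2 * Real.pi)⁻¹ : ℝ) * ∫ s in (0 : ℝ)..(2 * Real.pi),
        G s * cexp ((-(l * s : ℝ) : ℂ) * I))) t := by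
  have hpi : (2 * Real.pi : ℝ) ≠ 0 := by positivity
  have e : ∀ s : ℝ, G s * tp m v (t - s) = ∑ l ∈ range (m + 1),
      (v l * cexp (((l * t : ℝ) : ℂ) * I)) * (G s * cexp ((-(l * s : ℝ) : ℂ) * I)) := by
    intro s
    unfold tp
    rw [Finset.mul_sum]
    refine Finset.sum_congr rfl fun l _ => ?_
    have e1 : cexp (((l * (t - s) : ℝ) : ℂ) * I) =
        cexp (((l * t : ℝ) : ℂ) * I) * cexp ((-(l * s : ℝ) : ℂ) * I) := by
      rw [← Complex.exp_add]
      congr 1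
      push_cast
      ring
    rw [e1]
    ring
  rw [intervalIntegral.integral_congr fun s _ => e s]
  rw [intervalIntegral.integral_finsetSum fun l _ => by
    apply Continuous.intervalIntegrable; fun_prop]
  unfold tp
  rw [Finset.mul_sum]
  refine Finset.sum_congr rfl fun l _ => ?_
  rw [intervalIntegral.integral_const_mul]
  have h2 : ((2 * Real.pi : ℝ) : ℂ) * (((2 * Real.pi)⁻¹ : ℝ) : ℂ) = 1 := by
    rw [← Complex.ofReal_mul, mul_inv_cancel₀ hpi, Complex.ofReal_one]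
  linear_combination (-(v l * cexp (((l * t : ℝ) : ℂ) * I)) *
    ∫ s in (0 : ℝ)..(2 * Real.pi), G s * cexp ((-(l * s : ℝ) : ℂ) * I)) * h2

theorem val : S_VAL := by
  intro n g hg hper0
  have hpi : 0 < 2 * Real.pi := by positivity
  obtain ⟨G, hGd⟩ : ∃ G : ℝ → ℂ, G = fun t => g t * cexp (((n * t : ℝ) : ℂ) * I) := ⟨_, rfl⟩
  have hG : Continuous G := by
    rw [hGd]
    fun_prop
  have hGn : ∀ t, ‖G t‖ = ‖g t‖ := by
    intro t
    rw [hGd]
    show ‖g t * cexp (((n * t : ℝ) : ℂ) * I)‖ = _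
    rw [norm_mul, Complex.norm_exp_ofReal_mul_I, mul_one]
  refine ⟨fun l => vc n l * (((2 * Real.pi)⁻¹ : ℝ) * ∫ s in (0 : ℝ)..(2 * Real.pi),
    G s * cexp ((-(l * s : ℝ) : ℂ) * I)), ?_, fun j hj => ?_⟩
  · obtain ⟨b, hb⟩ : ∃ b : ℕ → ℂ, b = fun l => vc n l * (((2 * Real.pi)⁻¹ : ℝ) *
      ∫ s in (0 : ℝ)..(2 * Real.pi), G s * cexp ((-(l * s : ℝ) : ℂ) * I)) := ⟨_, rfl⟩
    rw [← hb]
    have hC := continuous_tp (3 * n) (vc n)
    have hBC := continuous_tp (3 * n) b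
    have h1 : ∀ t, ‖tp (3 * n) b t‖ ≤
        (2 * Real.pi)⁻¹ * ∫ s in (0 : ℝ)..(2 * Real.pi), ‖G s‖ * ‖tp (3 * n) (vc n) (t - s)‖ := by
      intro t
      have h2 := conv' (3 * n) (vc n) G hG t
      rw [← hb] at h2
      have h3 : ‖∫ s in (0 : ℝ)..(2 * Real.pi), G s * tp (3 * n) (vc n) (t - s)‖ ≤
          ∫ s in (0 : ℝ)..(2 * Real.pi), ‖G s * tp (3 * n) (vc n) (t - s)‖ :=
        intervalIntegral.norm_integral_le_integral_norm hpi.le
      rw [h2, norm_mul, Complex.norm_real, Real.norm_eq_abs, abs_of_pos hpi] at h3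
      simp only [norm_mul] at h3
      rw [inv_mul_eq_div, le_div_iff₀ hpi]
      linarith
    have hcont2 : Continuous (Function.uncurry fun t s : ℝ =>
        ‖G s‖ * ‖tp (3 * n) (vc n) (t - s)‖) := by
      have e1 : Continuous fun q : ℝ × ℝ => ‖G q.2‖ := (hG.comp continuous_snd).norm
      have e2 : Continuous fun q : ℝ × ℝ => ‖tp (3 * n) (vc n) (q.1 - q.2)‖ :=
        (hC.comp (continuous_fst.sub continuous_snd)).norm
      exact e1.mul e2
    have hper : Function.Periodic (fun t => ‖tp (3 * n) (vc n) t‖) (2 * Real.pi) := fun t => by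
      show ‖tp (3 * n) (vc n) (t + 2 * Real.pi)‖ = _
      rw [tp_per]
    have h4 : ∀ s, ∫ t in (0 : ℝ)..(2 * Real.pi), ‖tp (3 * n) (vc n) (t - s)‖ =
        ∫ t in (0 : ℝ)..(2 * Real.pi), ‖tp (3 * n) (vc n) t‖ := by
      intro s
      rw [intervalIntegral.integral_comp_sub_right (fun t => ‖tp (3 * n) (vc n) t‖) s]
      have := hper.intervalIntegral_add_eq (0 - s) 0
      rw [zero_add] at this
      rw [← this]
      congr 1
      ring
    have hcl : Continuous fun t => (2 * Real.pi)⁻¹ *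
        ∫ s in (0 : ℝ)..(2 * Real.pi), ‖G s‖ * ‖tp (3 * n) (vc n) (t - s)‖ := by
      refine continuous_const.mul ?_
      exact intervalIntegral.continuous_parametric_intervalIntegral_of_continuous' hcont2 _ _
    have h5 : ∫ t in (0 : ℝ)..(2 * Real.pi), ‖tp (3 * n) b t‖ ≤
        ∫ t in (0 : ℝ)..(2 * Real.pi), (2 * Real.pi)⁻¹ *
          ∫ s in (0 : ℝ)..(2 * Real.pi), ‖G s‖ * ‖tp (3 * n) (vc n) (t - s)‖ :=
      intervalIntegral.integral_mono_on hpi.le (hBC.norm.intervalIntegrable _ _)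
        (hcl.intervalIntegrable _ _) (fun t _ => h1 t)
    rw [intervalIntegral.integral_const_mul, swap _ hcont2 0 (2 * Real.pi) hpi.le] at h5
    have h6 : ∫ s in (0 : ℝ)..(2 * Real.pi), ∫ t in (0 : ℝ)..(2 * Real.pi),
        ‖G s‖ * ‖tp (3 * n) (vc n) (t - s)‖ =
        (∫ s in (0 : ℝ)..(2 * Real.pi), ‖g s‖) *
          ∫ t in (0 : ℝ)..(2 * Real.pi), ‖tp (3 * n) (vc n) t‖ := by
      rw [← intervalIntegral.integral_mul_const]
      refine intervalIntegral.integral_congr fun s _ => ?_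
      show ∫ t in (0 : ℝ)..(2 * Real.pi), ‖G s‖ * ‖tp (3 * n) (vc n) (t - s)‖ = _
      rw [intervalIntegral.integral_const_mul, h4, hGn]
    rw [h6] at h5
    have h7 := N1_vc n
    unfold N1 at h7 ⊢
    have h8 : 0 ≤ (2 * Real.pi)⁻¹ * ∫ s in (0 : ℝ)..(2 * Real.pi), ‖g s‖ :=
      mul_nonneg (by positivity) (intervalIntegral.integral_nonneg hpi.le fun s _ => norm_nonneg _)
    calc (2 * Real.pi)⁻¹ * ∫ t in (0 : ℝ)..(2 * Real.pi), ‖tp (3 * n) b t‖
        ≤ (2 * Real.pi)⁻¹ * ((2 * Real.pi)⁻¹ * ((∫ s in (0 : ℝ)..(2 * Real.pi), ‖g s‖) *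
          ∫ t in (0 : ℝ)..(2 * Real.pi), ‖tp (3 * n) (vc n) t‖)) :=
          mul_le_mul_of_nonneg_left h5 (by positivity)
      _ = ((2 * Real.pi)⁻¹ * ∫ t in (0 : ℝ)..(2 * Real.pi), ‖tp (3 * n) (vc n) t‖) *
          ((2 * Real.pi)⁻¹ * ∫ s in (0 : ℝ)..(2 * Real.pi), ‖g s‖) := by ring
      _ ≤ 2 * ((2 * Real.pi)⁻¹ * ∫ s in (0 : ℝ)..(2 * Real.pi), ‖g s‖) :=
          mul_le_mul_of_nonneg_right h7 h8
  · show vc n (n + j) * _ = _
    rw [vc_mid n j hj, one_mul]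
    congr 1
    refine intervalIntegral.integral_congr fun s _ => ?_
    show G s * _ = _
    rw [hGd]
    show g s * cexp (((n * s : ℝ) : ℂ) * I) * cexp ((-(((n + j : ℕ) : ℝ) * s : ℝ) : ℂ) * I) = _
    rw [mul_assoc, ← Complex.exp_add]
    congr 2
    push_cast
    ring

end Pool.Agent.P8H76.TU
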